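import Mathlib
import Pool.Agent.H948Z.BK3

set_option autoImplicit false

namespace Pool.Agent.Results.MP_61b90e_gt.Beke

open CategoryTheory

/-- For every `n ≥ 1` there is a small category `C` such that `Ex ^ n` of its nerve is a Kan
complex while `Ex ^ (n - 1)` of its nerve is not. -/
theorem result (n : ℕ) (hn : 1 ≤ n) : ∃ (C : Type) (_ : SmallCategory C),
    SSet.KanComplex ((SSet.ex.obj)^[n] (nerve C)) ∧
      ¬ SSet.KanComplex ((SSet.ex.obj)^[n - 1] (nerve C)) :=
  Pool.Agent.H948Z.BK.beke n hn

end Pool.Agent.Results.MP_61b90e_gt.Beke
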